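import Pool.Agent.P.MP_f49e60_an.Tod

namespace Pool.Agent.Results.MP_f49e60_an.BoundingNumber

open Filter Set Cardinal Pool.Agent.P.MP_f49e60_an

/-- If some family of at most `ℵ₁` sequences of natural numbers is not eventually dominated by a
single sequence, then there is a Banach space of density at most `ℵ₁` with a Lipschitz `C¹` bump,
without a copy of `c₀` and without an equivalent norm with the Mazur intersection property. -/
theorem result :
    (∃ F : Set (ℕ → ℕ), Cardinal.mk F ≤ Cardinal.aleph 1 ∧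
      ¬ ∃ g : ℕ → ℕ, ∀ f ∈ F, ∀ᶠ n in Filter.atTop, f n ≤ g n) →
    ∃ (X : Type) (_ : NormedAddCommGroup X) (_ : NormedSpace ℝ X) (_ : CompleteSpace X),
      (∃ S : Set X, Cardinal.mk S ≤ Cardinal.aleph 1 ∧ Dense (Submodule.span ℝ S : Set X)) ∧
      (∃ b : X → ℝ, ContDiff ℝ 1 b ∧ (∃ L, LipschitzWith L b) ∧ b ≠ 0 ∧
        Bornology.IsBounded (Function.support b)) ∧
      (¬ ∃ T : ZeroAtInftyContinuousMap ℕ ℝ →L[ℝ] X,
          ∃ c : ℝ, 0 < c ∧ ∀ u : ZeroAtInftyContinuousMap ℕ ℝ, c * ‖u‖ ≤ ‖T u‖) ∧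
      ¬ ∃ N : Seminorm ℝ X,
        (∃ a b : ℝ, 0 < a ∧ 0 < b ∧ ∀ x : X, a * ‖x‖ ≤ N x ∧ N x ≤ b * ‖x‖) ∧
        ∀ C : Set X, Convex ℝ C → IsClosed C → Bornology.IsBounded C →
          ∀ z : X, z ∉ C →
            ∃ x : X, ∃ r : ℝ, C ⊆ {y : X | N (y - x) ≤ r} ∧ r < N (z - x) := by
  rintro ⟨F, hF, hF'⟩
  let I : Type := (aleph 1).ord.ToType
  have hc : #I = aleph 1 := mk_ord_toType _
  have hI : ∀ i : I, (Iio i).Countable := fun i =>
    (countable_iff_lt_aleph_one _).2 (mk_Iio_toType_ord_lt i)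
  have hu : Uncountable I := aleph1_le_mk_iff.1 hc.ge
  push Not at hF'
  obtain ⟨f₀, hf₀, -⟩ := hF' fun _ => 0
  have hne : Nonempty F := ⟨⟨f₀, hf₀⟩⟩
  obtain ⟨j⟩ : Nonempty (F ↪ I) := (le_def _ _).1 (hF.trans hc.ge)
  obtain ⟨s⟩ := exists_scale hI (fun i => (Function.invFun j i).1) fun h => by
    obtain ⟨f, h1, h2⟩ := hF' h
    exact ⟨j ⟨f, h1⟩, by rwa [Function.leftInverse_invFun j.injective]⟩
  obtain ⟨h1, h2⟩ := main s.col hI Scale.iso_KS (Scale.hs_col hI) (fun i => (i, 0)) Scale.col_sep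
  refine ⟨XX s.col, inferInstance, inferInstance, inferInstance,
    ⟨range fun γ => ⟨dl s.col γ, dl_mem _ γ⟩, mk_range_le.trans ?_, ?_⟩, h1, no_c0 _, h2⟩
  · rw [mk_prod, lift_id, lift_id, hc, mk_nat, mul_aleph0_eq aleph0_lt_aleph_one.le]
  · refine Metric.dense_iff.2 fun x ε hε => ?_
    obtain ⟨μ, hμ⟩ := exists_emb s.col x.2 hε
    refine ⟨Finsupp.linearCombination ℝ (fun γ => (⟨dl s.col γ, dl_mem _ γ⟩ : XX s.col)) μ, ?_, ?_⟩
    · rw [Metric.mem_ball', Subtype.dist_eq, dist_eq_norm]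
      have h3 := Finsupp.apply_linearCombination ℝ (XX s.col).subtype
        (fun γ => (⟨dl s.col γ, dl_mem _ γ⟩ : XX s.col)) μ
      rw [Submodule.subtype_apply] at h3
      rw [h3]
      exact hμ
    · rw [SetLike.mem_coe, ← Finsupp.range_linearCombination]
      exact ⟨μ, rfl⟩

end Pool.Agent.Results.MP_f49e60_an.BoundingNumber
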