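import Pool.Agent.P.MP_f49e60_an.M.Main
import Pool.Agent.P.MP_f49e60_an.M.Scale
import Pool.Agent.P.MP_f49e60_an.M.Key
import Pool.Agent.P.MP_f49e60_an.M.HSM
import Pool.Agent.P.MP_f49e60_an.M.Kap
import Pool.Agent.P.MP_f49e60_an.M.SpaceM
import Pool.Agent.P.MP_f49e60_an.M.Ctrl
import Pool.Agent.P.MP_f49e60_an.M.Close
import Pool.Agent.P.MP_f49e60_an.M.NoMip
import Pool.Agent.P.MP_f49e60_an.M.Van
import Pool.Agent.P.MP_f49e60_an.M.Sg
import Pool.Agent.P.MP_f49e60_an.M.SliceA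
import Pool.Agent.P.MP_f49e60_an.M.SysM
import Pool.Agent.P.MP_f49e60_an.M.Fix
import Pool.Agent.P.MP_f49e60_an.M.BumpM
import Pool.Agent.P.MP_f49e60_an.M.NoC0

/-! A transitive model of ZFC in which some Banach space with a `C¹` bump and without a copy of
`c₀` has no equivalent norm with the Mazur intersection property. -/

namespace Pool.Agent.Results.MP_f49e60_an.Consistent

open ZFSet Filter Topology Pool.Agent.P.MP_3ab3de_lc Pool.Agent.P.MP_9a7e1f_lc
  Pool.Agent.P.MP_f49e60_an.Md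

/-- `F` is the field of reals of `M`; `X` is a Banach space of `M` (points coded by `c`, the
graphs of the operations lie in `M`, Cauchy sequences of `M` converge); `b` is a `C¹` bump of `M`
with derivative `b'`; `Z` is the space `c₀` of `M`; `N` ranges over the equivalent norms of `M`
and `C` over the closed bounded convex sets of `M`. -/
theorem result :
    ∃ M : Set ZFSet.{0}, TModel M ∧ ∃ F : Subfield ℝ, (∀ r, r ∈ F ↔ cut r ∈ M) ∧
    ∃ (X : Type) (_ : NormedAddCommGroup X) (_ : NormedSpace F X) (c : X → ZFSet.{0}),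
      Function.Injective c ∧ range c ∈ M ∧
      range (fun p : X × X => pair (pair (c p.1) (c p.2)) (c (p.1 + p.2))) ∈ M ∧
      range (fun p : F × X => pair (pair (cut p.1) (c p.2)) (c (p.1 • p.2))) ∈ M ∧
      range (fun x : X => pair (c x) (cut ‖x‖)) ∈ M ∧
      (∀ u : ℕ → X, range (fun n => pair (nm n) (c (u n))) ∈ M → CauchySeq u →
        ∃ x, Tendsto u atTop (𝓝 x)) ∧
      (∃ (b : X → ℝ) (b' : X → X →L[F] ℝ), range (fun x => pair (c x) (cut (b x))) ∈ M ∧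
        range (fun p : X × X => pair (pair (c p.1) (c p.2)) (cut (b' p.1 p.2))) ∈ M ∧
        (∀ x, ∀ ε > 0, ∃ δ > 0, ∀ h, ‖h‖ < δ → |b (x + h) - b x - b' x h| ≤ ε * ‖h‖) ∧
        (∀ x, ∀ ε > 0, ∃ δ > 0, ∀ y, ‖y - x‖ < δ → ∀ h, |b' y h - b' x h| ≤ ε * ‖h‖) ∧
        b ≠ 0 ∧ Bornology.IsBounded (Function.support b)) ∧
      (∃ Z : Submodule F (ZeroAtInftyContinuousMap ℕ ℝ),
        (∀ u, u ∈ Z ↔ range (fun n : ℕ => pair (nm n) (cut (u n))) ∈ M) ∧
        ¬ ∃ T : Z →L[F] X, ∃ a : ℝ, 0 < a ∧ ∀ u, a * ‖u‖ ≤ ‖T u‖) ∧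
      ¬ ∃ N : Seminorm F X, range (fun x => pair (c x) (cut (N x))) ∈ M ∧
        (∃ a b : ℝ, 0 < a ∧ 0 < b ∧ ∀ x, a * ‖x‖ ≤ N x ∧ N x ≤ b * ‖x‖) ∧
        ∀ C : Set X, range (fun x : C => c x) ∈ M → Convex F C → IsClosed C →
          Bornology.IsBounded C → ∀ z, z ∉ C →
            ∃ (x : X) (r : ℝ), C ⊆ {y | N (y - x) ≤ r} ∧ r < N (z - x) :=
  main @scale @dmem @key @hsm kap_dense @space @ctrl @close @van @noMip @dsg slice @sys @fix @bump
    @noC0

end Pool.Agent.Results.MP_f49e60_an.Consistent
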